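import Pool.Agent.H34.VMadE

namespace Pool.Agent.Results.MP_0a8ab4_lc.Borel
open Pool.Agent.H34.VMad

/-- Over every countable field with at least three elements there is an infinite mad family of
block subspaces which is a Borel subset of `2 ^ E`. -/
theorem result (F : Type) [Field F] [Countable F] (h3 : ∃ c : F, c ≠ 0 ∧ c ≠ 1)
    (E : Type) [AddCommGroup E] [Module F E] (b : Module.Basis ℕ F E) :
    ∃ 𝒜 : Set (Submodule F E), 𝒜.Infinite ∧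
      (∀ X ∈ 𝒜, ∃ v : ℕ → E, X = Submodule.span F (Set.range v) ∧ (∀ i, v i ≠ 0) ∧
        ∀ i, ∀ m ∈ (b.repr (v i)).support, ∀ n ∈ (b.repr (v (i + 1))).support, m < n) ∧
      (∀ X ∈ 𝒜, ∀ Y ∈ 𝒜, X ≠ Y → Module.Finite F ↥(X ⊓ Y)) ∧
      (∀ U : Submodule F E, ¬ Module.Finite F U → ∃ X ∈ 𝒜, ¬ Module.Finite F ↥(X ⊓ U)) ∧
      @MeasurableSet (E → Bool) (borel (E → Bool)) {χ | ∃ X ∈ 𝒜, ∀ x, χ x = true ↔ x ∈ X} :=
  (exists_borel b h3).imp fun _ k =>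
    ⟨k.1, k.2.2.2.2, k.2.1.1.2, (mad_iff.1 k.2.1).2, k.2.2.1⟩

end Pool.Agent.Results.MP_0a8ab4_lc.Borel
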